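import Pool.Agent.H23.DM.TargetsI
import Pool.Agent.H23.DM.TargetsG
import Pool.Agent.H31.SW.TargetsG

/-!
# The mean square over the frequencies in a box and a coset, row MQ
-/

set_option autoImplicit false

open NumberField NumberField.InfinitePlace NumberField.Units
  NumberField.Units.dirichletUnitTheorem MeasureTheory Set Filter Complex
open scoped nonZeroDivisors ENNReal ComplexConjugate

namespace Pool.Agent.H65.DM.MQ

open Pool.Agent.H23.DM
open Pool.Agent.H25.HK Pool.Agent.H23.LB Pool.Agent.H23.LC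
open Pool.Agent.H28.RC (Rep ft idl)
open Pool.Agent.H29.DW (dg Rl lf wv Pos Wg cpar Ci om zs rv Wt PrG)
open Pool.Agent.H29.TC (Gn LC cq dvs AC MC)
open Pool.Agent.H31.SW (EE itg FF HD DB DS dif Pf GG G2 DD PP pF dK pz ps Tf WG)
open Pool.Agent.H31.SX (ND RK Gcd LK)
open Pool.Agent.H27.TM (Sh S4 lo Maj G3 kp El Cr Am mf Dl mc Ep Cls Spc bt th1)

/-! ### Local lemmas -/

private theorem EE_add (z w : ℂ) : EE (z + w) = EE z * EE w := by
  unfold EE
  rw [← Complex.exp_add]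
  congr 1
  push_cast [Complex.add_re]
  ring

private theorem EE_conj (z : ℂ) : conj (EE z) = EE (-z) := by
  unfold EE
  rw [← Complex.exp_conj]
  congr 1
  simp

private theorem norm_EE (z : ℂ) : ‖EE z‖ = 1 := by
  unfold EE
  rw [show (-((z.re : ℝ) : ℂ) * I) = ((-z.re : ℝ) : ℂ) * I by push_cast; ring]
  exact Complex.norm_exp_ofReal_mul_I _

private theorem cont_EE : Continuous EE := by
  unfold EE
  fun_prop

private theorem cont_GG (q : ℂ → ℂ) (w : ℂ) : Continuous (fun c => GG q c w) := by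
  unfold GG
  exact (cont_EE.comp (by fun_prop)).mul continuous_const

private theorem norm_GG (q : ℂ → ℂ) (c w : ℂ) : ‖GG q c w‖ = ‖q (w - 1)‖ := by
  unfold GG
  rw [norm_mul, norm_EE, one_mul]

private theorem GG_zero {p : Bool → ℂ → ℂ} (hp : Pf p) (r : Bool) (c w : ℂ)
    (hw : 1 / 10000 < ‖w - 1‖) : GG (p r) c w = 0 := by
  unfold GG
  rw [hp.2 r _ hw, mul_zero]

private theorem GG_pair (q : ℂ → ℂ) (c b w w' : ℂ) :
    GG q (c + b) w * conj (GG q (c + b) w') =
      GG q c w * conj (GG q c w') * EE (b * (Complex.log w - Complex.log w')) := by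
  have h1 : EE (b * (Complex.log w - Complex.log w')) =
      EE (b * Complex.log w) * EE (-(b * Complex.log w')) := by
    rw [← EE_add]
    congr 1
    ring
  rw [h1]
  unfold GG
  rw [map_mul, map_mul, EE_conj, EE_conj, add_mul, add_mul, EE_add, neg_add, EE_add]
  ring

private theorem loc_int {Φ : Bool → ℝ → ℂ → ℝ} {Ψ : Bool → ℂ → ℂ} {C₀ : ℝ} (h : Maj Φ Ψ C₀)
    (q : ℂ → ℂ) (r : Bool) (G : ℝ) (hG : 1 ≤ G) (c w w' : ℂ)
    (hz : Rl r (Complex.log w - Complex.log w')) :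
    ∫ b : ℂ, (Φ r G b : ℂ) * (GG q (c + b) w * conj (GG q (c + b) w')) =
      ((C₀ * G ^ dg r : ℝ) : ℂ) * mf q (Ψ r) G c w w' := by
  have h1 : ∀ b : ℂ, (Φ r G b : ℂ) * (GG q (c + b) w * conj (GG q (c + b) w')) =
      (GG q c w * conj (GG q c w')) *
        ((Φ r G b : ℂ) * EE (b * (Complex.log w - Complex.log w'))) := by
    intro b
    rw [GG_pair]
    ring
  simp_rw [h1]
  rw [integral_const_mul, h.four r G _ hG hz]
  unfold mf
  ring

private theorem meas_Sh : MeasurableSet Sh := by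
  have : Sh = Complex.re ⁻¹' (Icc (-(1 / 2)) (1 / 2)) ∩ Complex.im ⁻¹' (Icc (-(1 / 2)) (1 / 2)) := by
    ext u
    simp only [Sh, mem_ofPred_eq, mem_inter_iff, mem_preimage, mem_Icc, abs_le]
  rw [this]
  exact (Complex.measurable_re measurableSet_Icc).inter (Complex.measurable_im measurableSet_Icc)

private theorem vol_Sh : volume Sh = 1 := by
  have h1 : Sh = Complex.measurableEquivRealProd ⁻¹'
      (Icc (-(1 / 2)) (1 / 2) ×ˢ Icc (-(1 / 2)) (1 / 2)) := by
    ext u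
    simp only [Sh, mem_ofPred_eq, mem_preimage, mem_prod, mem_Icc, abs_le,
      Complex.measurableEquivRealProd_apply]
  rw [h1, Complex.volume_preserving_equiv_real_prod.measure_preimage_equiv,
    Measure.volume_eq_prod, Measure.prod_prod, Real.volume_Icc]
  norm_num

private theorem norm_Sh {u : ℂ} (hu : u ∈ Sh) : ‖u‖ ≤ 1 := by
  have h1 : ‖u‖ ≤ |u.re| + |u.im| := Complex.norm_le_abs_re_add_abs_im u
  have h2 := hu.1
  have h3 := hu.2
  linarith

/-- the real parts of logarithms of points near `1` -/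
private theorem log_real {w : ℂ} (hw : w.im = 0) (h1 : ‖w - 1‖ ≤ 1 / 10000) :
    (Complex.log w).im = 0 := by
  have h2 : 0 < w.re := by
    have h3 : |(w - 1).re| ≤ ‖w - 1‖ := Complex.abs_re_le_norm _
    have h4 := (abs_le.mp (h3.trans h1)).1
    simp at h4
    linarith
  rw [Complex.log_im, Complex.arg_eq_zero_iff]
  exact ⟨h2.le, hw⟩

/-- the inequality of Jensen -/
private theorem jensen {α : Type*} [MeasurableSpace α] (P : Measure α) [IsProbabilityMeasure P]
    (f : α → ℂ) (hf : Integrable f P) (hf2 : Integrable (fun x => ‖f x‖ ^ 2) P) :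
    ‖∫ x, f x ∂P‖ ^ 2 ≤ ∫ x, ‖f x‖ ^ 2 ∂P := by
  set m := ∫ x, ‖f x‖ ∂P with hm
  have h1 : ‖∫ x, f x ∂P‖ ≤ m := norm_integral_le_integral_norm f
  have h2 : 0 ≤ ∫ x, (‖f x‖ - m) ^ 2 ∂P := integral_nonneg fun x => sq_nonneg _
  have h3 : ∀ x, (‖f x‖ - m) ^ 2 = ‖f x‖ ^ 2 - (2 * m) * ‖f x‖ + m ^ 2 := fun x => by ring
  simp_rw [h3] at h2
  have i2 : Integrable (fun x => (2 * m) * ‖f x‖) P := hf.norm.const_mul _
  have h5 : ∫ x, (‖f x‖ ^ 2 - (2 * m) * ‖f x‖ + m ^ 2) ∂P =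
      ∫ x, ‖f x‖ ^ 2 ∂P - (2 * m) * m + m ^ 2 := by
    rw [integral_add (f := fun x => ‖f x‖ ^ 2 - (2 * m) * ‖f x‖) (g := fun _ => m ^ 2)
      (hf2.sub i2) (integrable_const _), integral_sub hf2 i2, integral_const_mul,
      integral_const, ← hm, probReal_univ, one_smul]
  rw [h5] at h2
  have h4 : ‖∫ x, f x ∂P‖ ^ 2 ≤ m ^ 2 := pow_le_pow_left₀ (norm_nonneg _) h1 2
  nlinarith

/-! ### The finite sum -/

section Fin

variable {V : Type} [Fintype V] {κ : Type} (X : Finset κ) (w : κ → V → ℂ) (rr : V → Bool)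
  (a : κ → ℂ)

private noncomputable def Sx (q : Bool → ℂ → ℂ) (c : V → ℂ) : ℂ :=
  ∑ x ∈ X, a x * ∏ v, GG (q (rr v)) (c v) (w x v)

private theorem cont_Sx (q : Bool → ℂ → ℂ) : Continuous (Sx X w rr a q) := by
  unfold Sx
  refine continuous_finsetSum _ fun x _ => continuous_const.mul
    (continuous_finsetProd _ fun v _ => ?_)
  exact (cont_GG (q (rr v)) (w x v)).comp (continuous_apply v)

private theorem bdd_Sx (q : Bool → ℂ → ℂ) : ∃ B : ℝ, 0 ≤ B ∧ ∀ c, ‖Sx X w rr a q c‖ ≤ B := by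
  refine ⟨∑ x ∈ X, ‖a x‖ * ∏ v, ‖q (rr v) (w x v - 1)‖, Finset.sum_nonneg fun x _ =>
    mul_nonneg (norm_nonneg _) (Finset.prod_nonneg fun v _ => norm_nonneg _), fun c => ?_⟩
  unfold Sx
  refine (norm_sum_le _ _).trans (Finset.sum_le_sum fun x _ => ?_)
  rw [norm_mul, norm_prod]
  refine mul_le_mul_of_nonneg_left ?_ (norm_nonneg _)
  exact le_of_eq (Finset.prod_congr rfl fun v _ => norm_GG _ _ _)

/-- the measure on the product of the unit squares -/
private noncomputable def PS (V : Type) [Fintype V] : Measure (V → ℂ) :=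
  Measure.pi fun _ : V => (volume : Measure ℂ).restrict Sh

private instance probSh : IsProbabilityMeasure ((volume : Measure ℂ).restrict Sh) :=
  ⟨by rw [Measure.restrict_apply_univ, vol_Sh]⟩

private instance probPS : IsProbabilityMeasure (PS V) := by
  unfold PS
  infer_instance

private theorem step1 {p q : Bool → ℂ → ℂ}
    (hpq : ∀ (r : Bool) (c w : ℂ), GG (p r) c w = ∫ u in Sh, GG (q r) (c + u) w) (c : V → ℂ) :
    Sx X w rr a p c = ∫ u, Sx X w rr a q (c + u) ∂(PS V) := by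
  have hi : ∀ x ∈ X, Integrable (fun u : V → ℂ => ∏ v, GG (q (rr v)) ((c + u) v) (w x v))
      (PS V) := by
    intro x _
    refine Integrable.of_bound ?_ (∏ v, ‖q (rr v) (w x v - 1)‖) ?_
    · refine Continuous.aestronglyMeasurable ?_
      refine continuous_finsetProd _ fun v _ => ?_
      exact (cont_GG (q (rr v)) (w x v)).comp
        ((continuous_apply v).comp (continuous_const.add continuous_id))
    · refine Eventually.of_forall fun u => ?_
      rw [norm_prod]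
      exact le_of_eq (Finset.prod_congr rfl fun v _ => norm_GG _ _ _)
  unfold Sx
  rw [integral_finsetSum _ fun x hx => (hi x hx).const_mul (a x)]
  refine Finset.sum_congr rfl fun x _ => ?_
  rw [integral_const_mul]
  congr 1
  simp_rw [Pi.add_apply]
  unfold PS
  rw [integral_fintype_prod_eq_prod (fun (v : V) (u : ℂ) => GG (q (rr v)) (c v + u) (w x v))]
  exact Finset.prod_congr rfl fun v _ => hpq _ _ _

private theorem intF (q : Bool → ℂ → ℂ) (c : V → ℂ) (μ : Measure (V → ℂ)) [IsFiniteMeasure μ] :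
    Integrable (fun u => ‖Sx X w rr a q (c + u)‖ ^ 2) μ := by
  obtain ⟨B, hB, h⟩ := bdd_Sx X w rr a q
  refine Integrable.of_bound ?_ (B ^ 2) ?_
  · refine Continuous.aestronglyMeasurable ?_
    exact ((cont_Sx X w rr a q).comp (continuous_const.add continuous_id)).norm.pow 2
  · refine Eventually.of_forall fun u => ?_
    rw [Real.norm_of_nonneg (by positivity)]
    exact pow_le_pow_left₀ (norm_nonneg _) (h _) 2

private theorem step2 {p q : Bool → ℂ → ℂ}
    (hpq : ∀ (r : Bool) (c w : ℂ), GG (p r) c w = ∫ u in Sh, GG (q r) (c + u) w) (c : V → ℂ) :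
    ‖Sx X w rr a p c‖ ^ 2 ≤ ∫ u, ‖Sx X w rr a q (c + u)‖ ^ 2 ∂(PS V) := by
  rw [step1 X w rr a hpq c]
  refine jensen _ _ ?_ (intF X w rr a q c _)
  obtain ⟨B, hB, h⟩ := bdd_Sx X w rr a q
  refine Integrable.of_bound ?_ B (Eventually.of_forall fun u => h _)
  exact ((cont_Sx X w rr a q).comp (continuous_const.add continuous_id)).aestronglyMeasurable

/-- the product of the unit squares -/
private def SV (V : Type) : Set (V → ℂ) := univ.pi fun _ : V => Sh

private theorem meas_SV : MeasurableSet (SV V) := MeasurableSet.univ_pi fun _ => meas_Sh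

private theorem PS_eq : PS V = volume.restrict (SV V) := by
  unfold PS SV
  rw [volume_pi, Measure.restrict_pi_pi]

private theorem vol_SV : volume (SV V) = 1 := by
  unfold SV
  rw [volume_pi, Measure.pi_pi]
  simp [vol_Sh]

/-- the translation -/
private theorem step3 (F : (V → ℂ) → ℝ) (c c₀ : V → ℂ) :
    ∫ u, F (c + u) ∂(PS V) =
      ∫ b, (SV V).indicator (fun _ => (1 : ℝ)) (b - (c - c₀)) * F (c₀ + b) := by
  rw [PS_eq, ← integral_indicator meas_SV]
  have h1 : ∀ b, (SV V).indicator (fun _ => (1 : ℝ)) (b - (c - c₀)) * F (c₀ + b) =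
      (fun u => (SV V).indicator (fun u => F (c + u)) u) (b - (c - c₀)) := by
    intro b
    by_cases hb : b - (c - c₀) ∈ SV V
    · simp only [indicator_of_mem hb, one_mul]
      congr 1
      abel
    · simp only [indicator_of_notMem hb, zero_mul]
  simp_rw [h1]
  rw [integral_sub_right_eq_self]

open scoped Classical in
/-- the number of the squares which contain a point -/
private theorem cover {Φ : Bool → ℝ → ℂ → ℝ} {Ψ : Bool → ℂ → ℂ} {C₀ : ℝ} (h : Maj Φ Ψ C₀)
    {ι : Type} (J : Finset ι) (c : ι → V → ℂ) (c₀ : V → ℂ) (G : V → ℝ) (D : ℝ) (hD : 0 ≤ D)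
    (hG : ∀ v, 1 ≤ G v) (h0 : ∀ v, Rl (rr v) (c₀ v))
    (hc : ∀ j ∈ J, ∀ v, Rl (rr v) (c j v) ∧ ‖c j v - c₀ v‖ ≤ 2 * G v)
    (hS : ∀ e : V → ℂ, ((J.filter fun j => ∀ v, ‖c j v - e v‖ ≤ 1).card : ℝ) ≤ D) (b : V → ℂ) :
    ∑ j ∈ J, (SV V).indicator (fun _ => (1 : ℝ)) (b - (c j - c₀)) ≤
      D * ∏ v, Φ (rr v) (G v) (b v) := by
  have hpos : 0 ≤ D * ∏ v, Φ (rr v) (G v) (b v) :=
    mul_nonneg hD (Finset.prod_nonneg fun v _ => h.nonneg _ _ _)
  have h1 : ∑ j ∈ J, (SV V).indicator (fun _ => (1 : ℝ)) (b - (c j - c₀)) =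
      ((J.filter fun j => b - (c j - c₀) ∈ SV V).card : ℝ) := by
    rw [Finset.card_filter]
    push_cast
    refine Finset.sum_congr rfl fun j _ => ?_
    by_cases hj : b - (c j - c₀) ∈ SV V
    · rw [indicator_of_mem hj, if_pos hj]
    · rw [indicator_of_notMem hj, if_neg hj]
  rw [h1]
  by_cases hne : (J.filter fun j => b - (c j - c₀) ∈ SV V).Nonempty
  · obtain ⟨j, hj⟩ := hne
    rw [Finset.mem_filter] at hj
    have hP : 1 ≤ ∏ v, Φ (rr v) (G v) (b v) := by
      refine Finset.prod_induction _ (fun x => (1 : ℝ) ≤ x)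
        (fun a b ha hb => one_le_mul_of_one_le_of_one_le ha hb) le_rfl (fun v _ => ?_)
      have hv : b v - (c j v - c₀ v) ∈ Sh := hj.2 v (mem_univ v)
      have hn := (hc j hj.1 v).2
      have hr := (hc j hj.1 v).1
      have hre : |(c j v - c₀ v).re| ≤ 2 * G v := (Complex.abs_re_le_norm _).trans hn
      have him : |(c j v - c₀ v).im| ≤ 2 * G v := (Complex.abs_im_le_norm _).trans hn
      have h2 : |(b v - (c j v - c₀ v)).re| ≤ 1 / 2 := hv.1
      have h3 : |(b v - (c j v - c₀ v)).im| ≤ 1 / 2 := hv.2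
      have hGv := hG v
      refine h.one _ _ _ hGv ?_ ?_
      · have e : (b v).re = (b v - (c j v - c₀ v)).re + (c j v - c₀ v).re := by simp
        rw [e]
        refine (abs_add_le _ _).trans ?_
        linarith
      · have e : (b v).im = (b v - (c j v - c₀ v)).im + (c j v - c₀ v).im := by simp
        by_cases hrv : rr v = true
        · rw [if_pos hrv]
          have hz : (c j v - c₀ v).im = 0 := by
            rw [Complex.sub_im, hr hrv, h0 v hrv, sub_zero]
          rw [e, hz, add_zero]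
          exact h3
        · rw [if_neg hrv, e]
          refine (abs_add_le _ _).trans ?_
          linarith
    have hcard : ((J.filter fun j => b - (c j - c₀) ∈ SV V).card : ℝ) ≤ D := by
      refine le_trans ?_ (hS (b + c₀))
      refine Nat.cast_le.mpr (Finset.card_le_card fun i hi => ?_)
      rw [Finset.mem_filter] at hi ⊢
      refine ⟨hi.1, fun v => ?_⟩
      have hv : b v - (c i v - c₀ v) ∈ Sh := hi.2 v (mem_univ v)
      have := norm_Sh hv
      rw [← norm_neg] at this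
      refine le_trans (le_of_eq ?_) this
      congr 1
      simp only [Pi.add_apply]
      ring
    calc ((J.filter fun j => b - (c j - c₀) ∈ SV V).card : ℝ) ≤ D := hcard
      _ = D * 1 := (mul_one D).symm
      _ ≤ _ := mul_le_mul_of_nonneg_left hP hD
  · rw [Finset.not_nonempty_iff_eq_empty] at hne
    rw [hne, Finset.card_empty, Nat.cast_zero]
    exact hpos

private theorem intPhi {Φ : Bool → ℝ → ℂ → ℝ} {Ψ : Bool → ℂ → ℂ} {C₀ : ℝ} (h : Maj Φ Ψ C₀)
    (G : V → ℝ) (hG : ∀ v, 1 ≤ G v) :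
    Integrable (fun b : V → ℂ => ∏ v, Φ (rr v) (G v) (b v)) := by
  rw [volume_pi]
  exact Integrable.fintype_prod_dep (f := fun (v : V) (z : ℂ) => Φ (rr v) (G v) z)
    (fun v => h.int (rr v) (G v) (hG v))

private theorem intPhiF {Φ : Bool → ℝ → ℂ → ℝ} {Ψ : Bool → ℂ → ℂ} {C₀ : ℝ} (h : Maj Φ Ψ C₀)
    (q : Bool → ℂ → ℂ) (c₀ : V → ℂ) (G : V → ℝ) (hG : ∀ v, 1 ≤ G v) :
    Integrable (fun b : V → ℂ => (∏ v, Φ (rr v) (G v) (b v)) * ‖Sx X w rr a q (c₀ + b)‖ ^ 2) := by
  obtain ⟨B, hB, hb⟩ := bdd_Sx X w rr a q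
  refine (intPhi rr h G hG).mul_bdd (c := B ^ 2) ?_ ?_
  · refine Continuous.aestronglyMeasurable ?_
    exact ((cont_Sx X w rr a q).comp (continuous_const.add continuous_id)).norm.pow 2
  · refine Eventually.of_forall fun u => ?_
    rw [Real.norm_of_nonneg (by positivity)]
    exact pow_le_pow_left₀ (norm_nonneg _) (hb _) 2

open scoped Classical in
private theorem step4 {Φ : Bool → ℝ → ℂ → ℝ} {Ψ : Bool → ℂ → ℂ} {C₀ : ℝ} (h : Maj Φ Ψ C₀)
    {p q : Bool → ℂ → ℂ}
    (hpq : ∀ (r : Bool) (c w : ℂ), GG (p r) c w = ∫ u in Sh, GG (q r) (c + u) w)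
    {ι : Type} (J : Finset ι) (c : ι → V → ℂ) (c₀ : V → ℂ) (G : V → ℝ) (D : ℝ) (hD : 0 ≤ D)
    (hG : ∀ v, 1 ≤ G v) (h0 : ∀ v, Rl (rr v) (c₀ v))
    (hc : ∀ j ∈ J, ∀ v, Rl (rr v) (c j v) ∧ ‖c j v - c₀ v‖ ≤ 2 * G v)
    (hS : ∀ e : V → ℂ, ((J.filter fun j => ∀ v, ‖c j v - e v‖ ≤ 1).card : ℝ) ≤ D) :
    ∑ j ∈ J, ‖Sx X w rr a p (c j)‖ ^ 2 ≤
      D * ∫ b : V → ℂ, (∏ v, Φ (rr v) (G v) (b v)) * ‖Sx X w rr a q (c₀ + b)‖ ^ 2 := by
  set F : (V → ℂ) → ℝ := fun z => ‖Sx X w rr a q z‖ ^ 2 with hF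
  have hi : ∀ j ∈ J, Integrable (fun b : V → ℂ =>
      (SV V).indicator (fun _ => (1 : ℝ)) (b - (c j - c₀)) * F (c₀ + b)) := by
    intro j _
    have h1 : Integrable ((SV V).indicator (fun u => F (c j + u))) := by
      rw [integrable_indicator_iff meas_SV]
      have : IsFiniteMeasure ((volume : Measure (V → ℂ)).restrict (SV V)) :=
        ⟨by rw [Measure.restrict_apply_univ, vol_SV]; exact ENNReal.one_lt_top⟩
      exact intF X w rr a q (c j) _
    refine (h1.comp_sub_right (c j - c₀)).congr (Eventually.of_forall fun b => ?_)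
    by_cases hb : b - (c j - c₀) ∈ SV V
    · simp only [indicator_of_mem hb, one_mul]
      congr 1
      abel
    · simp only [indicator_of_notMem hb, zero_mul]
  calc ∑ j ∈ J, ‖Sx X w rr a p (c j)‖ ^ 2
      ≤ ∑ j ∈ J, ∫ u, F (c j + u) ∂(PS V) :=
        Finset.sum_le_sum fun j _ => step2 X w rr a hpq (c j)
    _ = ∑ j ∈ J, ∫ b, (SV V).indicator (fun _ => (1 : ℝ)) (b - (c j - c₀)) * F (c₀ + b) :=
        Finset.sum_congr rfl fun j _ => step3 F (c j) c₀
    _ = ∫ b, ∑ j ∈ J, (SV V).indicator (fun _ => (1 : ℝ)) (b - (c j - c₀)) * F (c₀ + b) :=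
        (integral_finsetSum _ hi).symm
    _ ≤ ∫ b : V → ℂ, D * ((∏ v, Φ (rr v) (G v) (b v)) * F (c₀ + b)) := by
        refine integral_mono (integrable_finsetSum _ hi)
          ((intPhiF X w rr a h q c₀ G hG).const_mul D) fun b => ?_
        simp only
        rw [← Finset.sum_mul, ← mul_assoc]
        exact mul_le_mul_of_nonneg_right (cover rr h J c c₀ G D hD hG h0 hc hS b)
          (sq_nonneg _)
    _ = _ := by rw [integral_const_mul]

private theorem int_pair {Φ : Bool → ℝ → ℂ → ℝ} {Ψ : Bool → ℂ → ℂ} {C₀ : ℝ} (h : Maj Φ Ψ C₀)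
    (q : Bool → ℂ → ℂ) (c₀ : V → ℂ) (G : V → ℝ) (hG : ∀ v, 1 ≤ G v) (x x' : κ) :
    Integrable (fun b : V → ℂ => ∏ v, ((Φ (rr v) (G v) (b v) : ℂ) *
        (GG (q (rr v)) (c₀ v + b v) (w x v) *
          conj (GG (q (rr v)) (c₀ v + b v) (w x' v))))) := by
  rw [volume_pi]
  refine Integrable.fintype_prod_dep (f := fun (v : V) (z : ℂ) => ((Φ (rr v) (G v) z : ℂ) *
      (GG (q (rr v)) (c₀ v + z) (w x v) * conj (GG (q (rr v)) (c₀ v + z) (w x' v)))))
    (fun v => ?_)
  refine Integrable.mul_bdd (c := ‖q (rr v) (w x v - 1)‖ * ‖q (rr v) (w x' v - 1)‖)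
    (h.int (rr v) (G v) (hG v)).ofReal ?_ ?_
  · refine Continuous.aestronglyMeasurable ?_
    refine Continuous.mul ?_ (Complex.continuous_conj.comp ?_)
    · exact (cont_GG _ _).comp (continuous_const.add continuous_id)
    · exact (cont_GG _ _).comp (continuous_const.add continuous_id)
  · refine Eventually.of_forall fun u => ?_
    rw [norm_mul, RCLike.norm_conj, norm_GG, norm_GG]

/-- the sum over the pairs with the kernel `kk` -/
private noncomputable def Q2 (kk : κ → κ → ℂ) (q : Bool → ℂ → ℂ) (c : V → ℂ) : ℂ :=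
  ∑ x ∈ X, ∑ x' ∈ X, kk x x' * ∏ v, (GG (q (rr v)) (c v) (w x v) *
    conj (GG (q (rr v)) (c v) (w x' v)))

private theorem Q2_eq (Φ : Bool → ℝ → ℂ → ℝ) (kk : κ → κ → ℂ) (q : Bool → ℂ → ℂ)
    (c₀ : V → ℂ) (G : V → ℝ) (b : V → ℂ) :
    ((∏ v, Φ (rr v) (G v) (b v) : ℝ) : ℂ) * Q2 X w rr kk q (c₀ + b) =
      ∑ x ∈ X, ∑ x' ∈ X, kk x x' * ∏ v, ((Φ (rr v) (G v) (b v) : ℂ) *
        (GG (q (rr v)) (c₀ v + b v) (w x v) * conj (GG (q (rr v)) (c₀ v + b v) (w x' v)))) := by
  unfold Q2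
  rw [Finset.mul_sum]
  refine Finset.sum_congr rfl fun x _ => ?_
  rw [Finset.mul_sum]
  refine Finset.sum_congr rfl fun x' _ => ?_
  rw [Finset.prod_mul_distrib (f := fun v => (Φ (rr v) (G v) (b v) : ℂ)), Complex.ofReal_prod]
  simp only [Pi.add_apply]
  ring

private theorem int_Q2 {Φ : Bool → ℝ → ℂ → ℝ} {Ψ : Bool → ℂ → ℂ} {C₀ : ℝ} (h : Maj Φ Ψ C₀)
    (kk : κ → κ → ℂ) (q : Bool → ℂ → ℂ) (c₀ : V → ℂ) (G : V → ℝ) (hG : ∀ v, 1 ≤ G v) :
    Integrable (fun b : V → ℂ =>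
      ((∏ v, Φ (rr v) (G v) (b v) : ℝ) : ℂ) * Q2 X w rr kk q (c₀ + b)) := by
  simp_rw [Q2_eq]
  exact integrable_finsetSum _ fun x _ => integrable_finsetSum _ fun x' _ =>
    (int_pair w rr h q c₀ G hG x x').const_mul _

private theorem step5 {Φ : Bool → ℝ → ℂ → ℝ} {Ψ : Bool → ℂ → ℂ} {C₀ : ℝ} (h : Maj Φ Ψ C₀)
    (kk : κ → κ → ℂ) (q : Bool → ℂ → ℂ) (c₀ : V → ℂ) (G : V → ℝ) (hG : ∀ v, 1 ≤ G v)
    (hw : ∀ x ∈ X, ∀ v, Rl (rr v) (Complex.log (w x v))) :
    ∫ b : V → ℂ, ((∏ v, Φ (rr v) (G v) (b v) : ℝ) : ℂ) * Q2 X w rr kk q (c₀ + b) =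
      ((∏ v, (C₀ * G v ^ dg (rr v)) : ℝ) : ℂ) * ∑ x ∈ X, ∑ x' ∈ X, kk x x' * ∏ v,
        mf (q (rr v)) (Ψ (rr v)) (G v) (c₀ v) (w x v) (w x' v) := by
  simp_rw [Q2_eq]
  rw [integral_finsetSum _ fun x _ => integrable_finsetSum _ fun x' _ =>
    (int_pair w rr h q c₀ G hG x x').const_mul _, Finset.mul_sum]
  refine Finset.sum_congr rfl fun x hx => ?_
  rw [integral_finsetSum _ fun x' _ => (int_pair w rr h q c₀ G hG x x').const_mul _,
    Finset.mul_sum]
  refine Finset.sum_congr rfl fun x' hx' => ?_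
  rw [integral_const_mul, integral_fintype_prod_volume_eq_prod (fun (v : V) (z : ℂ) =>
      ((Φ (rr v) (G v) z : ℂ) *
        (GG (q (rr v)) (c₀ v + z) (w x v) * conj (GG (q (rr v)) (c₀ v + z) (w x' v))))),
    mul_left_comm, Complex.ofReal_prod, ← Finset.prod_mul_distrib]
  congr 1
  refine Finset.prod_congr rfl fun v _ => ?_
  refine loc_int h (q (rr v)) (rr v) (G v) (hG v) _ _ _ ?_
  intro hr
  rw [Complex.sub_im, hw x hx v hr, hw x' hx' v hr, sub_zero]

end Fin

/-! ### The theorem -/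

private theorem tsX {K : Type} [Field K] [NumberField K] {L : FI K} (X : Finset K)
    (hXL : ∀ x ∈ X, x ∈ L) (f : K → ℂ) (hf : ∀ x ∈ L, x ∉ X → f x = 0) :
    ∑' x : {x : K // x ∈ L}, f x = ∑ x ∈ X, f x := by
  classical
  rw [tsum_eq_sum (s := X.subtype (fun x => x ∈ L))]
  · exact Finset.sum_subtype_of_mem f hXL
  · intro x hx
    exact hf x x.2 fun h => hx (Finset.mem_subtype.mpr h)

private theorem dg_rv {K : Type} [Field K] (v : InfinitePlace K) : dg (rv v) = v.mult := by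
  unfold dg rv mult
  by_cases h : v.IsReal
  · simp [h]
  · simp [h]

private theorem wv_add {K : Type} [Field K] (v : InfinitePlace K) (x x' : K)
    (y : InfinitePlace K → ℝ) (ω : InfinitePlace K → ℂ) :
    wv v (x + x') y ω = wv v x y ω + wv v x' y ω := by
  unfold wv
  rw [map_add]
  ring

private theorem wv_real {K : Type} [Field K] (v : InfinitePlace K) (x : K)
    (y : InfinitePlace K → ℝ) (ω : InfinitePlace K → ℂ) (hω : Pos ω) (hv : rv v = true) :
    (wv v x y ω).im = 0 := by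
  have h1 : v.IsReal := by
    simpa [rv] using hv
  have h2 : (v.embedding x).im = 0 := by
    have := (isReal_iff.mp h1)
    have h3 := ComplexEmbedding.IsReal.coe_embedding_apply this x
    rw [← h3]
    exact Complex.ofReal_im _
  unfold wv
  rw [Complex.mul_im, Complex.mul_im, h2, hω.real v h1, Complex.ofReal_im]
  ring

private theorem Gn_k {K : Type} [Field K] [NumberField K] {l k : Ideal (𝓞 K)} {M : FI K} {x₀ : K}
    (h : Gn (l * k) M x₀) : Gn k M x₀ := by
  have h1 : ((l * k : Ideal (𝓞 K)) : FI K) * M ≤ (k : FI K) * M := by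
    gcongr
    exact Ideal.mul_le_right
  exact ⟨h.mem, h.ne, fun y hy => (h.gen y hy).imp fun a ha => ⟨ha.1, h1 ha.2⟩,
    fun a j hj => h.iff a j (Ideal.mul_le_right.trans hj)⟩

theorem pf_MQ (hCU : Pool.Agent.H31.SW.W_CU) (hBE : D_BE) : D_MQ := by
  intro n p q Φ Ψ C₀ hn hp hq hpq hC₀ hM
  obtain ⟨C', _, hfin⟩ := hCU n hn
  refine ⟨(max 1 C₀) ^ n, by positivity, ?_⟩
  intro K _ _ hK l k κ M x₀ y ω r ι J η η₀ c c₀ G D hFP hω hkκ hκr hG hr hη₀ hη hc₀ hc hS
  classical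
  have hl : l ≠ ⊥ := hFP.lk.l_ne
  have hk : k ≠ ⊥ := hFP.lk.k_ne
  have hM0 : M ≠ 0 := hFP.M_ne
  set L : FI K := ((l * k.radical : Ideal (𝓞 K)) : FI K) * M with hLdef
  have hrad : k.radical ≠ ⊥ := fun h => hk (le_bot_iff.mp (Ideal.le_radical.trans h.le))
  have hL : L ≠ 0 := by
    rw [hLdef]
    refine mul_ne_zero ?_ hM0
    rw [Ne, FractionalIdeal.coeIdeal_eq_zero]
    exact mul_ne_zero hl hrad
  have hLM : L ≤ M := by
    rw [hLdef]
    calc ((l * k.radical : Ideal (𝓞 K)) : FI K) * M ≤ 1 * M := by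
          gcongr
          exact FractionalIdeal.coeIdeal_le_one
      _ = M := one_mul M
  have hX := (hfin K hK L y ω (fun v => 1 - wv v r y ω) (fun _ => 1 / 10000) hL hω
    (fun _ => by norm_num)).1
  set X := hX.toFinset with hXdef
  have hmem : ∀ x, x ∈ X ↔ x ∈ L ∧ ∀ v, ‖wv v (r + x) y ω - 1‖ ≤ 1 / 10000 := by
    intro x
    rw [hXdef, Set.Finite.mem_toFinset, mem_ofPred_eq]
    refine and_congr_right fun _ => forall_congr' fun v => ?_
    rw [wv_add, show wv v x y ω - (1 - wv v r y ω) = wv v r y ω + wv v x y ω - 1 by ring]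
  have hXL : ∀ x ∈ X, x ∈ L := fun x hx => ((hmem x).mp hx).1
  have hXn : ∀ x ∈ L, x ∉ X → ∃ v, 1 / 10000 < ‖wv v (r + x) y ω - 1‖ := by
    intro x hx hxX
    by_contra hcon
    push Not at hcon
    exact hxX ((hmem x).mpr ⟨hx, hcon⟩)
  set w : K → InfinitePlace K → ℂ := fun x v => wv v (r + x) y ω with hw
  set u : (𝓞 K ⧸ k → ℂ) → K → ℂ := fun e x => cq k e M x₀ (r + x) with hu
  have hSS : ∀ (f : 𝓞 K ⧸ k → ℂ) (e : InfinitePlace K → ℂ),
      SQ p L y ω r (cq k f M x₀) e = Sx X w rv (u f) p e := by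
    intro f e
    unfold SQ Sx
    refine tsX X hXL (fun x => cq k f M x₀ (r + x) *
      pF (fun v => GG (p (rv v)) (e v)) y ω (r + x)) ?_
    intro x hx hxX
    obtain ⟨v, hv⟩ := hXn x hx hxX
    refine mul_eq_zero_of_right _ ?_
    exact Finset.prod_eq_zero (Finset.mem_univ v) (GG_zero hp _ _ _ hv)
  set kk : K → K → ℂ := fun x x' => if x - x' ∈ (κ : FI K) * M then
    u η₀ x * conj (u η₀ x') else 0 with hkk
  have hMM : MP q Ψ L ((κ : FI K) * M) y ω r (cq k η₀ M x₀) G c₀ = ∑ x ∈ X, ∑ x' ∈ X,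
      kk x x' * ∏ v, mf (q (rv v)) (Ψ (rv v)) (G v) (c₀ v) (w x v) (w x' v) := by
    unfold MP
    rw [tsX X hXL (fun x => ∑' x' : {x : K // x ∈ L}, if x - x' ∈ (κ : FI K) * M then
      cq k η₀ M x₀ (r + x) * (starRingEnd ℂ) (cq k η₀ M x₀ (r + x')) *
      ∏ v : InfinitePlace K, mf (q (rv v)) (Ψ (rv v)) (G v) (c₀ v) (wv v (r + x) y ω)
        (wv v (r + x') y ω) else 0)]
    · refine Finset.sum_congr rfl fun x _ => ?_
      rw [tsX X hXL (fun x' => if x - x' ∈ (κ : FI K) * M then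
        cq k η₀ M x₀ (r + x) * (starRingEnd ℂ) (cq k η₀ M x₀ (r + x')) *
        ∏ v : InfinitePlace K, mf (q (rv v)) (Ψ (rv v)) (G v) (c₀ v) (wv v (r + x) y ω)
          (wv v (r + x') y ω) else 0)]
      · refine Finset.sum_congr rfl fun x' _ => ?_
        simp only [hkk, ite_mul, zero_mul]
        rfl
      · intro x' hx' hxX
        obtain ⟨v, hv⟩ := hXn x' hx' hxX
        have h0 : ∏ v : InfinitePlace K, mf (q (rv v)) (Ψ (rv v)) (G v) (c₀ v)
            (wv v (r + x) y ω) (wv v (r + x') y ω) = 0 := by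
          refine Finset.prod_eq_zero (Finset.mem_univ v) ?_
          unfold mf
          rw [GG_zero hq _ _ _ hv, map_zero, mul_zero, zero_mul]
        rw [h0, mul_zero, ite_self]
    · intro x hx hxX
      obtain ⟨v, hv⟩ := hXn x hx hxX
      refine (tsum_congr fun x' => ?_).trans tsum_zero
      have h0 : ∏ v : InfinitePlace K, mf (q (rv v)) (Ψ (rv v)) (G v) (c₀ v)
          (wv v (r + x) y ω) (wv v (r + x') y ω) = 0 := by
        refine Finset.prod_eq_zero (Finset.mem_univ v) ?_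
        unfold mf
        rw [GG_zero hq _ _ _ hv, zero_mul, zero_mul]
      rw [h0, mul_zero, ite_self]
  have hlog : ∀ x ∈ X, ∀ v, Rl (rv v) (Complex.log (w x v)) := by
    intro x hx v hv
    exact log_real (wv_real v _ y ω hω hv) (((hmem x).mp hx).2 v)
  have hD : 0 ≤ D := (Nat.cast_nonneg _).trans (hS η₀ c₀)
  set H : Finset (𝓞 K ⧸ k → ℂ) := J.image η with hH
  have hNf : 0 ≤ Nf K κ := by
    unfold Nf
    positivity
  -- the inequality of Bessel at one point
  have hbes : ∀ b : InfinitePlace K → ℂ, ∑ f ∈ H, ‖Sx X w rv (u f) q (c₀ + b)‖ ^ 2 ≤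
      Nf K κ * (Q2 X w rv kk q (c₀ + b)).re := by
    intro b
    set a : K → ℂ := fun z => pF (fun v => GG (q (rv v)) ((c₀ + b) v)) y ω z with ha
    have hinj : ∀ x ∈ X, ∀ x' ∈ X, r + x = r + x' → x = x' := fun x _ x' _ h =>
      add_left_cancel h
    have h1 := hBE K k κ M x₀ H η₀ (X.image fun x => r + x) a hk hkκ hκr hM0 (Gn_k hFP.gen) hη₀
      (fun f hf => by
        obtain ⟨j, hj, rfl⟩ := Finset.mem_image.mp hf
        exact (hη j hj).1)
      (fun f hf => by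
        obtain ⟨j, hj, rfl⟩ := Finset.mem_image.mp hf
        exact (hη j hj).2)
      (fun x hx => by
        obtain ⟨z, hz, rfl⟩ := Finset.mem_image.mp hx
        exact FractionalIdeal.mem_coe.mp (Submodule.add_mem (M : Submodule (𝓞 K) K)
          (FractionalIdeal.mem_coe.mpr hr) (FractionalIdeal.mem_coe.mpr (hLM (hXL z hz)))))
    have h2 : ∀ f ∈ H, ‖Sx X w rv (u f) q (c₀ + b)‖ ^ 2 =
        ‖∑ x ∈ X.image (fun x => r + x), cq k f M x₀ x * a x‖ ^ 2 := by
      intro f _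
      rw [Finset.sum_image hinj]
      rfl
    rw [Finset.sum_congr rfl h2]
    refine h1.trans (le_of_eq ?_)
    congr 2
    rw [Finset.sum_image hinj]
    unfold Q2
    refine Finset.sum_congr rfl fun x _ => ?_
    rw [Finset.sum_image hinj]
    refine Finset.sum_congr rfl fun x' _ => ?_
    rw [add_sub_add_left_eq_sub]
    simp only [hkk, ite_mul, zero_mul]
    refine if_congr Iff.rfl ?_ rfl
    rw [Finset.prod_mul_distrib, ← map_prod]
    rfl
  have h5 := step5 X w rv hM kk q c₀ G hG hlog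
  rw [← hMM] at h5
  set MM := MP q Ψ L ((κ : FI K) * M) y ω r (cq k η₀ M x₀) G c₀ with hMMdef
  set A : (𝓞 K ⧸ k → ℂ) → ℝ := fun f => ∫ b : InfinitePlace K → ℂ,
    (∏ v, Φ (rv v) (G v) (b v)) * ‖Sx X w rv (u f) q (c₀ + b)‖ ^ 2 with hA
  have hstep4 : ∀ f ∈ H, ∑ j ∈ J with η j = f, ‖Sx X w rv (u f) p (c j)‖ ^ 2 ≤ D * A f := by
    intro f _
    refine step4 X w rv (u f) hM hpq (J.filter fun j => η j = f) c c₀ G D hD hG hc₀
      (fun j hj => hc j (Finset.mem_filter.mp hj).1) (fun e => ?_)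
    rw [Finset.filter_filter]
    exact hS f e
  have hsum : ∑ f ∈ H, A f ≤ Nf K κ * ((∏ v, (C₀ * G v ^ dg (rv v))) * ‖MM‖) := by
    have e1 : ∑ f ∈ H, A f = ∫ b : InfinitePlace K → ℂ, (∏ v, Φ (rv v) (G v) (b v)) *
        ∑ f ∈ H, ‖Sx X w rv (u f) q (c₀ + b)‖ ^ 2 := by
      simp_rw [Finset.mul_sum]
      exact (integral_finsetSum _ fun f _ => intPhiF X w rv (u f) hM q c₀ G hG).symm
    have i2 := int_Q2 X w rv hM kk q c₀ G hG
    have e2 : ∫ b : InfinitePlace K → ℂ, (∏ v, Φ (rv v) (G v) (b v)) *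
        ∑ f ∈ H, ‖Sx X w rv (u f) q (c₀ + b)‖ ^ 2 ≤ ∫ b : InfinitePlace K → ℂ,
        Nf K κ * (((∏ v, Φ (rv v) (G v) (b v) : ℝ) : ℂ) * Q2 X w rv kk q (c₀ + b)).re := by
      refine integral_mono ?_ (i2.re.const_mul _) fun b => ?_
      · simp_rw [Finset.mul_sum]
        exact integrable_finsetSum _ fun f _ => intPhiF X w rv (u f) hM q c₀ G hG
      · simp only
        rw [Complex.re_ofReal_mul, mul_left_comm]
        exact mul_le_mul_of_nonneg_left (hbes b)
          (Finset.prod_nonneg fun v _ => hM.nonneg _ _ _)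
    have e3 : ∫ b : InfinitePlace K → ℂ,
        Nf K κ * (((∏ v, Φ (rv v) (G v) (b v) : ℝ) : ℂ) * Q2 X w rv kk q (c₀ + b)).re =
        Nf K κ * ((((∏ v, (C₀ * G v ^ dg (rv v)) : ℝ) : ℂ) * MM)).re := by
      rw [integral_const_mul, ← h5]
      congr 1
      exact integral_re i2
    rw [e1]
    refine e2.trans ?_
    rw [e3]
    refine mul_le_mul_of_nonneg_left ?_ hNf
    refine (Complex.re_le_norm _).trans (le_of_eq ?_)
    rw [norm_mul, Complex.norm_real, Real.norm_of_nonneg]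
    exact Finset.prod_nonneg fun v _ => by
      have := hG v
      positivity
  have hPP : 0 ≤ PP G := by
    unfold PP
    exact Finset.prod_nonneg fun v _ => by
      have := hG v
      positivity
  have h8 : ∏ v, (C₀ * G v ^ dg (rv v)) ≤ (max 1 C₀) ^ n * PP G := by
    rw [Finset.prod_mul_distrib, Finset.prod_const, Finset.card_univ]
    have h9 : ∏ v : InfinitePlace K, G v ^ dg (rv v) = PP G := by
      unfold PP
      exact Finset.prod_congr rfl fun v _ => by rw [dg_rv]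
    rw [h9]
    refine mul_le_mul_of_nonneg_right ?_ hPP
    have hcard : Fintype.card (InfinitePlace K) ≤ n := by
      have hsum : ∑ v : InfinitePlace K, v.mult = n := by
        rw [← hK]; exact InfinitePlace.sum_mult_eq
      calc Fintype.card (InfinitePlace K) = ∑ v : InfinitePlace K, 1 := by simp
        _ ≤ ∑ v : InfinitePlace K, v.mult := Finset.sum_le_sum fun v _ => InfinitePlace.mult_pos
        _ = n := hsum
    calc C₀ ^ Fintype.card (InfinitePlace K) ≤ (max 1 C₀) ^ Fintype.card (InfinitePlace K) :=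
          pow_le_pow_left₀ hC₀.le (le_max_right _ _) _
      _ ≤ (max 1 C₀) ^ n := pow_le_pow_right₀ (le_max_left _ _) hcard
  calc ∑ j ∈ J, ‖SQ p L y ω r (cq k (η j) M x₀) (c j)‖ ^ 2
      = ∑ f ∈ H, ∑ j ∈ J with η j = f, ‖SQ p L y ω r (cq k (η j) M x₀) (c j)‖ ^ 2 :=
        (Finset.sum_fiberwise_of_maps_to (fun j hj => Finset.mem_image_of_mem η hj) _).symm
    _ ≤ ∑ f ∈ H, D * A f := by
        refine Finset.sum_le_sum fun f hf => le_trans (le_of_eq ?_) (hstep4 f hf)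
        refine Finset.sum_congr rfl fun j hj => ?_
        rw [(Finset.mem_filter.mp hj).2, hSS]
    _ = D * ∑ f ∈ H, A f := (Finset.mul_sum _ _ _).symm
    _ ≤ D * (Nf K κ * (((max 1 C₀) ^ n * PP G) * ‖MM‖)) :=
        mul_le_mul_of_nonneg_left (hsum.trans (mul_le_mul_of_nonneg_left
          (mul_le_mul_of_nonneg_right h8 (norm_nonneg _)) hNf)) hD
    _ = _ := by ring

end Pool.Agent.H65.DM.MQ
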