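import Pool.Agent.H23.DM.TargetsG
import Pool.Agent.H27.TM.TargetsG

/-!
# Representatives of the frequencies, row RP
-/

set_option autoImplicit false

open NumberField NumberField.InfinitePlace NumberField.Units
  NumberField.Units.dirichletUnitTheorem MeasureTheory Set Filter Complex
open scoped nonZeroDivisors ENNReal

namespace Pool.Agent.H65.DM.RP

open Pool.Agent.H23.DM
open Pool.Agent.H25.HK Pool.Agent.H23.LB Pool.Agent.H23.LC
open Pool.Agent.H28.RC (Rep ft idl)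
open Pool.Agent.H29.DW (dg Rl lf wv Pos Wg cpar Ci om zs rv Wt PrG)
open Pool.Agent.H29.TC (Gn LC cq dvs AC MC)
open Pool.Agent.H31.SW (EE itg FF HD DB DS dif Pf GG G2 DD PP pF dK pz ps Tf WG)
open Pool.Agent.H31.SX (ND RK Gcd LK)
open Pool.Agent.H27.TM (Sh S4 lo Maj G3 kp El Cr Am mf Dl mc Ep Cls Spc bt th1)

theorem pf_RP (hRP : Pool.Agent.H27.TM.M_RP) : D_RP := by
  intro n K _ _ hK ι J γ b c G hG hc
  classical
  set cl : ι → 𝓞 K ⧸ b := fun j => Ideal.Quotient.mk b (γ j) with hcl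
  have key : ∀ s : 𝓞 K ⧸ b, ∃ (I : Finset ι) (ρ : ι → ι), I ⊆ J.filter (fun j => cl j = s) ∧
      (∀ j ∈ J.filter (fun j => cl j = s), ρ j ∈ I ∧ ∀ v, ‖c j v - c (ρ j) v‖ ≤ 2 * G v) ∧
      Spc I c G (9 ^ n) := fun s =>
    hRP n K hK ι (J.filter (fun j => cl j = s)) c G hG
      (fun j hj => hc j (Finset.mem_filter.mp hj).1)
  choose I ρ h1 h2 h3 using key
  refine ⟨(J.image cl).biUnion I, fun j => ρ (cl j) j, ?_, ?_, ?_⟩
  · intro j hj
    obtain ⟨s, _, hs⟩ := Finset.mem_biUnion.mp hj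
    exact (Finset.mem_filter.mp (h1 s hs)).1
  · intro j hj
    have hj' : j ∈ J.filter (fun i => cl i = cl j) := Finset.mem_filter.mpr ⟨hj, rfl⟩
    obtain ⟨h4, h5⟩ := h2 (cl j) j hj'
    refine ⟨Finset.mem_biUnion.mpr ⟨cl j, Finset.mem_image_of_mem cl hj, h4⟩, ?_, h5⟩
    have h6 := (Finset.mem_filter.mp (h1 (cl j) h4)).2
    have h7 : Ideal.Quotient.mk b (γ (ρ (cl j) j)) = Ideal.Quotient.mk b (γ j) := h6
    exact Ideal.Quotient.eq.mp h7.symm
  · intro γ₀ c₀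
    refine le_trans ?_ (h3 (Ideal.Quotient.mk b γ₀) c₀)
    refine Nat.cast_le.mpr (Finset.card_le_card fun j hj => ?_)
    rw [Finset.mem_filter] at hj ⊢
    obtain ⟨h4, h5, h6⟩ := hj
    obtain ⟨s, _, hs⟩ := Finset.mem_biUnion.mp h4
    have h7 : cl j = s := (Finset.mem_filter.mp (h1 s hs)).2
    have h8 : cl j = Ideal.Quotient.mk b γ₀ := Ideal.Quotient.eq.mpr h5
    rw [← h8, h7]
    exact ⟨hs, h6⟩

end Pool.Agent.H65.DM.RP
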